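import Pool.Agent.N150.HS.Metric

/-!
# Positive holomorphic sectional curvature on a blown-up Hirzebruch surface

We show that the blow-up of the Hirzebruch surface `F₀ = ℙ¹ × ℙ¹` at one point (which is `ℙ²` blown up
at two points) carries a Kähler metric of positive holomorphic sectional curvature. This answers
Question 1 of the problem in the affirmative.

The surface is the quotient of the stable points `Z ∈ ℂ⁵` (no two coordinates which are not adjacent
in the cyclic order vanish) by the torus `(ℂ*)³`, and the metric is the one of the Kähler quotient of
the flat space `ℂ⁵` (the Guillemin metric). A horizontal line in `ℂ⁵` maps to a holomorphic disc in the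
surface; along the line the potential of the quotient metric is computed from the moment map
equations, and its derivative `(∂ ∂̄)²` is negative at the point of tangency; and the holomorphic
sectional curvature of the metric is at least the curvature of the disc.
-/

set_option autoImplicit false

open scoped Manifold ContDiff
open Pool.Agent.N150.HS

namespace Pool.Agent.Results.MP_3413ae_ag.BlowUpPositiveHSC

/-- There is a compact connected complex surface `X`, which is the blow-up of the Hirzebruch surface
`F₀ = ℙ¹ × ℙ¹` at a point, with a Kähler metric of positive holomorphic sectional curvature. -/
theorem result : ∃ (X : Type) (_ : TopologicalSpace X) (_ : ChartedSpace C2 X),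
    IsManifold 𝓘(ℂ, C2) ω X ∧ CompactSpace X ∧ T2Space X ∧ ConnectedSpace X ∧
      (∃ (β : X → F0) (p : F0), IsBlowUp β p) ∧ ∃ g : KahlerMetric X, g.PositiveHSC :=
  main

end Pool.Agent.Results.MP_3413ae_ag.BlowUpPositiveHSC
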